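import Pool.Agent.helper7.CSG.SpecJ
import Pool.Agent.helper89.EZ.RMU
import Pool.Agent.helper97.PO.RML

/-!
# csg:UTD (MP_70a088_an, class S): the tubes of a hyperbolic disc are simply connected (helper99)
-/

set_option autoImplicit false

open Complex Metric Set Filter Topology MeasureTheory
open Pool.Agent.helper98.ILF
open HY (UD T S hd UN RM)
open PM (DD rm cx pd cr hdf)
open CSF (Sy it PB VC Lv Om PV hdx FC RL gg bt)

noncomputable section

namespace CSJ

/-- sublevel sets of a holomorphic function on the unit disc have no holes. -/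
theorem UTD_nh (g : ℂ → ℂ) (hg : DifferentiableOn ℂ g UD) (B : ℝ) : BR.NoHole {u : ℂ | u ∈ UD ∧ ‖g u‖ < B} := by
  intro Γ hΓU hΓ p hp hb
  have hUD : {z : ℂ | ‖(fun w : ℂ => w) z‖ < 1} = UD := by
    ext z
    simp [HY.UD]
  have hK : connectedComponentIn Γᶜ p ⊆ UD := by
    have h := PO.NHS (fun w : ℂ => w) 1 differentiable_id Γ (by
      rw [hUD]
      exact fun x hx => (hΓU hx).1) hΓ p hp hb
    rwa [hUD] at h
  intro z hz
  refine ⟨hK hz, ?_⟩
  have hpN : p ∈ connectedComponentIn Γᶜ p := mem_connectedComponentIn hp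
  have hfr := BR.HUL_frontier Γ hΓ p
  obtain ⟨q0, hq0⟩ := PO.RML_front_ne hpN hb
  have hΓne : Γ.Nonempty := ⟨q0, hfr hq0⟩
  have hcl : closure (connectedComponentIn Γᶜ p) ⊆ UD := by
    intro x hx
    by_cases hxK : x ∈ connectedComponentIn Γᶜ p
    · exact hK hxK
    · have hN : IsOpen (connectedComponentIn Γᶜ p) := hΓ.isClosed.isOpen_compl.connectedComponentIn
      have hxf : x ∈ frontier (connectedComponentIn Γᶜ p) := by
        rw [frontier, hN.interior_eq]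
        exact ⟨hx, hxK⟩
      exact (hΓU (hfr hxf)).1
  have hΓc : ContinuousOn (fun x => ‖g x‖) Γ := (hg.continuousOn.mono (fun x hx => (hΓU hx).1)).norm
  obtain ⟨z0, hz0, hmax⟩ := hΓ.exists_isMaxOn hΓne hΓc
  have h1 : ∀ x ∈ frontier (connectedComponentIn Γᶜ p), ‖g x‖ ≤ ‖g z0‖ := fun x hx => hmax (hfr hx)
  have h2 := Complex.norm_le_of_forall_mem_frontier_norm_le hb (hg.mono hcl).diffContOnCl h1 (subset_closure hz)
  exact lt_of_le_of_lt h2 (hΓU hz0).2

theorem UTD (hLVB : LVB_stmt) (hTDF : PM.TDF_stmt) (hTPM : PM.TPM_stmt) : UTD_stmt := by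
  intro Y hY V hV q B hq hB hB1 j a ha haB
  obtain ⟨hdif, -, -, -, hL⟩ := hLVB Y hY
  obtain ⟨hPB0, -, -, -, -, -, -, -, hlev, -⟩ := hL V hV
  set W : Set ℂ := VC Y V 0 q with hW
  have hq0 : q ∈ PB Y V 0 := by rw [hPB0]; exact hq
  obtain ⟨hWD, hqW, hWV, hWeq, -, -, -⟩ := hlev 0 q hq0
  rw [← hW] at hWD hqW hWV hWeq
  have haW : it Y j a ∈ W := ha
  have haV : it Y j a ∈ V := by
    have := hWV haW
    rwa [hPB0] at this
  have haP : a ∈ PB Y V j := haV
  obtain ⟨hDD, haD, -, -, -, hDmap, hDmax⟩ := hlev j a haP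
  set D : Set ℂ := VC Y V j a with hD
  have hDW : ∀ z ∈ D, it Y j z ∈ W := by
    intro z hz
    have h1 := hDmap j le_rfl hz
    rw [Nat.sub_self, hWeq _ haW] at h1
    exact h1
  obtain ⟨hDo, -, hDf⟩ := hTDF D hDD
  obtain ⟨hψ, -, hcxa, -, hcxd, hDb, hDx⟩ := hDf a haD
  obtain ⟨-, -, hWf⟩ := hTDF W hWD
  obtain ⟨-, -, -, -, hWcx, hWb, -⟩ := hWf q hqW
  set ψ : ℂ → ℂ := rm D a with hψdef
  set g : ℂ → ℂ := fun u => cx W q (it Y j (ψ u)) with hg
  have hgd : DifferentiableOn ℂ g UD := by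
    have h1 : DifferentiableOn ℂ (fun u => it Y j (ψ u)) UD := (hdif j).comp_differentiableOn hψ.dif
    exact hWcx.comp h1 (fun u hu => hDW _ (hDx u hu).1)
  set A : Set ℂ := {u : ℂ | u ∈ UD ∧ ‖g u‖ < B} with hA
  have hUDo : IsOpen UD := isOpen_ball
  have hAo : IsOpen A := by
    have := hgd.continuousOn.norm.isOpen_inter_preimage hUDo (isOpen_Iio (a := B))
    exact this
  have h0UD : (0 : ℂ) ∈ UD := mem_ball_self one_pos
  have hgb : ∀ u ∈ UD, ‖g u‖ = pd W q (it Y j (ψ u)) := fun u hu => ((hWb _ (hDW _ (hDx u hu).1)).2.2.1).symm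
  have hψ0 : ψ 0 = a := hψ.val
  have h0A : (0 : ℂ) ∈ A := ⟨h0UD, by rw [hgb 0 h0UD, hψ0]; exact haB⟩
  set A₀ : Set ℂ := connectedComponentIn A 0 with hA0
  have hA0A : A₀ ⊆ A := connectedComponentIn_subset _ _
  have hA0o : IsOpen A₀ := hAo.connectedComponentIn
  have hA0c : IsConnected A₀ := isConnected_connectedComponentIn_iff.2 h0A
  have hA0n : BR.NoHole A₀ := PO.NHC A 0 hAo (UTD_nh g hgd B)
  have hA0u : A₀ ≠ univ := by
    intro h
    have h1 : (2 : ℂ) ∈ A₀ := by rw [h]; exact mem_univ _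
    have h2 : (2 : ℂ) ∈ UD := (hA0A h1).1
    rw [HY.UD, mem_ball_zero_iff] at h2
    norm_num at h2
  have h0A0 : (0 : ℂ) ∈ A₀ := mem_connectedComponentIn h0A
  obtain ⟨φ, hφ⟩ := EZ.RMU A₀ 0 hA0o hA0c hA0n hA0u h0A0
  set E : Set ℂ := {z | it Y j z ∈ W ∧ pd W q (it Y j z) < B} with hE
  have haE : a ∈ E := ⟨haW, haB⟩
  set C : Set ℂ := connectedComponentIn E a with hC
  have hCE : C ⊆ E := connectedComponentIn_subset _ _
  have haC : a ∈ C := mem_connectedComponentIn haE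
  have hCD : C ⊆ D := by
    apply hDmax C isPreconnected_connectedComponentIn _ haC
    intro z hz
    have h1 := hWV (hCE hz).1
    rw [hPB0] at h1
    exact h1
  have hCeq : ψ '' A₀ = C := by
    apply Subset.antisymm
    · have h1 : IsPreconnected (ψ '' A₀) := hA0c.isPreconnected.image ψ (hψ.dif.continuousOn.mono (fun u hu => (hA0A hu).1))
      apply h1.subset_connectedComponentIn ⟨0, h0A0, hψ0⟩
      rintro _ ⟨u, hu, rfl⟩
      obtain ⟨hu1, hu2⟩ := hA0A hu
      exact ⟨hDW _ (hDx u hu1).1, by rw [← hgb u hu1]; exact hu2⟩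
    · intro z hz
      have h1 : IsPreconnected (cx D a '' C) := isPreconnected_connectedComponentIn.image _ (hcxd.continuousOn.mono hCD)
      have h2 : cx D a '' C ⊆ A₀ := by
        apply h1.subset_connectedComponentIn ⟨a, haC, hcxa⟩
        rintro _ ⟨w, hw, rfl⟩
        obtain ⟨hw1, hw2, -, -, -, -⟩ := hDb w (hCD hw)
        refine ⟨hw1, ?_⟩
        rw [hgb _ hw1, hw2]
        exact (hCE hw).2
      exact ⟨cx D a z, h2 (mem_image_of_mem _ hz), (hDb z (hCD hz)).2.1⟩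
  have hφA : ∀ x ∈ UD, φ x ∈ A₀ := by
    intro x hx
    rw [← hφ.img]
    exact mem_image_of_mem _ hx
  have hRM : RM C a (fun x => ψ (φ x)) := by
    refine ⟨?_, ?_, ?_, ?_⟩
    · exact hψ.dif.comp hφ.dif (fun x hx => (hA0A (hφA x hx)).1)
    · intro x hx y hy hxy
      exact hφ.inj hx hy (hψ.inj (hA0A (hφA x hx)).1 (hA0A (hφA y hy)).1 hxy)
    · rw [← hCeq, ← hφ.img, image_image]
    · show ψ (φ 0) = a
      rw [hφ.val, hψ0]
  exact ⟨(hTPM C a _ hRM).1, hCD⟩

end CSJ
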